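import Mathlib
import Pool.Agent.Y755.AX.Stm

/-!
# Project AX, FIN: the final assembly (problem 5bb7da, S19343)
-/

set_option autoImplicit false

open MeasureTheory ProbabilityTheory

namespace Pool.Agent.Y418.AX.Fin

open Pool.Agent.Y755.AX

private lemma Gs_mono {S T : Set ℝ} (h : S ⊆ T) : Gs S ≤ Gs T :=
  iSup₂_le fun x hx => le_iSup₂_of_le x (h hx) le_rfl

private lemma Gs_le (hev : S_EVC) (S : Set ℝ) : Gs S ≤ (inferInstance : MeasurableSpace E) :=
  iSup₂_le fun x _ => (hev x).measurable.comap_le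

private lemma ncard_tr (t l r : ℝ) (d : E) :
    (Zs (tr t d) ∩ Set.Icc l r).ncard = (Zs d ∩ Set.Icc (l + t) (r + t)).ncard := by
  have him : (fun x : ℝ => x + t) '' (Zs (tr t d) ∩ Set.Icc l r) =
      Zs d ∩ Set.Icc (l + t) (r + t) := by
    ext y
    constructor
    · rintro ⟨x, ⟨hx, hx1, hx2⟩, rfl⟩
      exact ⟨hx, by dsimp only; linarith, by dsimp only; linarith⟩
    · rintro ⟨hy, hy1, hy2⟩
      refine ⟨y - t, ⟨?_, by linarith, by linarith⟩, by simp⟩
      show d.1 (y - t + t) = 0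
      rw [sub_add_cancel]
      exact hy
  rw [← him, Set.ncard_image_of_injective _ (add_left_injective t)]

theorem t_FIN : S_LIM → S_CNT → S_ZGP → S_EVC → S_INDG → S_SHIG →
    ∃ (Ω : Type) (m : MeasurableSpace Ω) (P : Measure Ω) (X : Ω → Set ℝ),
      IsProbabilityMeasure P ∧
      (∀ ω : Ω, ∀ u v : ℝ, (X ω ∩ Set.Icc u v).Finite) ∧
      (∀ u v : ℝ, Measurable (fun ω : Ω => (X ω ∩ Set.Icc u v).ncard)) ∧
      (∀ t : ℝ, ∀ n : ℕ, ∀ (l r : Fin n → ℝ) (k : Fin n → ℕ),
        P {ω : Ω | ∀ i : Fin n, (X ω ∩ Set.Icc (l i) (r i)).ncard = k i} =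
        P {ω : Ω | ∀ i : Fin n, (X ω ∩ Set.Icc (l i + t) (r i + t)).ncard = k i}) ∧
      (∃ c : ℝ, 0 < c ∧
        Indep
          (⨆ u : ℝ, ⨆ v : ℝ, MeasurableSpace.comap
            (fun ω : Ω => (X ω ∩ Set.Icc u (min v 0)).ncard) (inferInstance : MeasurableSpace ℕ))
          (⨆ u : ℝ, ⨆ v : ℝ, MeasurableSpace.comap
            (fun ω : Ω => (X ω ∩ Set.Icc (max u c) v).ncard) (inferInstance : MeasurableSpace ℕ))
          P) ∧
      (∃ a b : ℝ, 0 < a ∧ a ≤ b ∧
        ∀ᵐ ω ∂P, (∀ x ∈ X ω, ∀ y ∈ X ω, x ≠ y → a ≤ |x - y|) ∧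
          ∀ t : ℝ, (X ω ∩ Set.Icc t (t + b)).Nonempty) := by
  intro hlim hcnt hzgp hev hindg hshig
  obtain ⟨C, P, hC, hShi, hInd⟩ := hlim
  refine ⟨E, inferInstance, (P : Measure E), Zs, inferInstance, fun d u v => (hcnt u v).1 d,
    fun u v => ((hcnt u v).2).mono (Gs_le hev _) le_rfl, ?_, ⟨C, hC, ?_⟩,
    ⟨1, 4, one_pos, by norm_num, ?_⟩⟩
  · intro t n l r k
    have hmeas : MeasurableSet[Gs Set.univ]
        {d : E | ∀ i : Fin n, (Zs d ∩ Set.Icc (l i) (r i)).ncard = k i} := by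
      rw [Set.setOf_forall]
      refine @MeasurableSet.iInter E _ (Gs Set.univ) _ _ fun i => ?_
      have h1 : MeasurableSet[Gs (Set.Icc (l i) (r i))]
          {d : E | (Zs d ∩ Set.Icc (l i) (r i)).ncard = k i} :=
        (hcnt (l i) (r i)).2 (MeasurableSet.singleton (k i))
      exact (Gs_mono (Set.subset_univ _)) _ h1
    rw [← hshig t P (hShi t) _ hmeas]
    congr 1
    ext d
    simp only [Set.mem_preimage, Set.mem_setOf_eq]
    exact forall_congr' fun i => by rw [ncard_tr]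
  · have h := hindg C P hC hInd
    refine indep_of_indep_of_le_left (indep_of_indep_of_le_right h ?_) ?_
    · refine iSup_le fun u => iSup_le fun v => ?_
      have h1 := (hcnt (max u C) v).2.comap_le
      refine h1.trans (Gs_mono fun x hx => ?_)
      exact (le_max_right u C).trans hx.1
    · refine iSup_le fun u => iSup_le fun v => ?_
      have h1 := (hcnt u (min v 0)).2.comap_le
      refine h1.trans (Gs_mono fun x hx => ?_)
      exact hx.2.trans (min_le_right v 0)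
  · exact Filter.Eventually.of_forall fun d => hzgp d

end Pool.Agent.Y418.AX.Fin
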