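import Mathlib
import Pool.Agent.Y755.AX.Stm

/-!
# Project AX, SPA: a sparse process (problem 5bb7da)
-/

set_option autoImplicit false
set_option linter.unusedVariables false

open MeasureTheory ProbabilityTheory

namespace Pool.Agent.Y418.AX.Spa

open Pool.Agent.Y755.AX

/-- configurations with given gaps form a measurable set -/
theorem meas_gap (a b : ℕ) : MeasurableSet {A : ℤ → Bool | Gap a b A} := by
  have hA : ∀ x : ℤ, Measurable fun A : ℤ → Bool => A x = true := fun x => by
    have h : MeasurableSet ((fun A : ℤ → Bool => A x) ⁻¹' {true}) :=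
      (measurable_pi_apply x) (measurableSet_singleton true)
    exact measurableSet_setOfPred.1 h
  refine measurableSet_setOfPred.2 ?_
  unfold Gap
  refine Measurable.and ?_ ?_
  · refine Measurable.forall fun x => Measurable.forall fun y => ?_
    exact measurable_const.imp ((hA x).imp ((hA y).imp measurable_const))
  · refine Measurable.forall fun x => Measurable.exists fun y => ?_
    exact measurable_const.and (measurable_const.and (hA y))

/-- the conditions on a pair of configurations form a measurable set -/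
theorem meas_pair (a b c d : ℕ) : MeasurableSet {p : ℤ → Bool × Bool |
    Gap a b (fun x => (p x).1) ∧ (∀ x, (p x).2 = true → (p x).1 = true) ∧
      Gap c d (fun x => (p x).2)} := by
  have h1 : Measurable fun p : ℤ → Bool × Bool => fun x : ℤ => (p x).1 :=
    measurable_pi_lambda _ fun x => (measurable_pi_apply x).fst
  have h2 : Measurable fun p : ℤ → Bool × Bool => fun x : ℤ => (p x).2 :=
    measurable_pi_lambda _ fun x => (measurable_pi_apply x).snd
  have hm : MeasurableSet {p : ℤ → Bool × Bool | ∀ x, (p x).2 = true → (p x).1 = true} := by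
    refine measurableSet_setOfPred.2 (Measurable.forall fun x => ?_)
    have e1 : Measurable fun p : ℤ → Bool × Bool => (p x).1 = true :=
      measurableSet_setOfPred.1 ((measurable_pi_apply x).fst (measurableSet_singleton true))
    have e2 : Measurable fun p : ℤ → Bool × Bool => (p x).2 = true :=
      measurableSet_setOfPred.1 ((measurable_pi_apply x).snd (measurableSet_singleton true))
    exact e2.imp e1
  exact (h1 (meas_gap a b)).inter (hm.inter (h2 (meas_gap c d)))

/-- the conditions on the marked process hold almost surely -/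
theorem ae_op (hatg : S_ATG) {a b s t : ℕ} {μ ν : Measure (ℤ → Bool)}
    (hμ : IsProbabilityMeasure μ) (hν : IsProbabilityMeasure ν)
    (hm : Measurable (fun p : (ℤ → Bool) × (ℤ → Bool) => att p.1 p.2))
    (gμ : ∀ᵐ A ∂μ, Gap a b A) (gν : ∀ᵐ A ∂ν, Gap s t A) :
    ∀ᵐ p ∂((μ.prod ν).map fun p => att p.1 p.2), p ∈ {p : ℤ → Bool × Bool |
      Gap a b (fun x => (p x).1) ∧ (∀ x, (p x).2 = true → (p x).1 = true) ∧
        Gap (s * a) (t * b) (fun x => (p x).2)} := by
  refine (mem_ae_map_iff hm.aemeasurable (meas_pair a b (s * a) (t * b))).2 ?_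
  have g1 : ∀ᵐ p ∂μ.prod ν, Gap a b p.1 := Measure.quasiMeasurePreserving_fst.ae gμ
  have g2 : ∀ᵐ p ∂μ.prod ν, Gap s t p.2 := Measure.quasiMeasurePreserving_snd.ae gν
  filter_upwards [g1, g2] with p hp1 hp2
  refine ⟨hp1, fun x hx => ?_, hatg a b s t p.1 p.2 hp1 hp2⟩
  simp only [att, Bool.and_eq_true] at hx ⊢
  exact hx.1

/-- the operation: marking the points of a process by another process -/
theorem op (hats : S_ATS) (hatp : S_ATP) (hatg : S_ATG) {a b s t k K : ℕ}
    {μ ν : Measure (ℤ → Bool)} (hμ : IsProbabilityMeasure μ) (hν : IsProbabilityMeasure ν)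
    (sμ : Sta μ) (sν : Sta ν) (dμ : Dep k μ) (dν : Dep K ν)
    (gμ : ∀ᵐ A ∂μ, Gap a b A) (gν : ∀ᵐ A ∂ν, Gap s t A) :
    ∃ κ : Measure (ℤ → Bool × Bool), IsProbabilityMeasure κ ∧ Sta κ ∧ Dep (k + K * b) κ ∧
      ∀ᵐ p ∂κ, p ∈ {p : ℤ → Bool × Bool | Gap a b (fun x => (p x).1) ∧
        (∀ x, (p x).2 = true → (p x).1 = true) ∧ Gap (s * a) (t * b) (fun x => (p x).2)} := by
  have hm := (hats μ ν hμ hν sμ sν).1
  have hst := (hats μ ν hμ hν sμ sν).2
  have hdep := hatp a b k K μ ν hμ hν sμ sν dμ dν gμ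
  have hpr : IsProbabilityMeasure ((μ.prod ν).map fun p => att p.1 p.2) :=
    Measure.isProbabilityMeasure_map hm.aemeasurable
  have hae := ae_op hatg (s := s) (t := t) hμ hν hm gμ gν
  generalize ((μ.prod ν).map fun p => att p.1 p.2) = κ at hst hdep hpr hae
  exact ⟨κ, hpr, hst, hdep, hae⟩

/-- the second component -/
theorem snd_comp (hbf : S_BF) {c d k : ℕ} {κ : Measure (ℤ → Bool × Bool)}
    (hκ : IsProbabilityMeasure κ) (sκ : Sta κ) (dκ : Dep k κ)
    (gκ : ∀ᵐ p ∂κ, Gap c d (fun x => (p x).2)) :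
    ∃ ν : Measure (ℤ → Bool), IsProbabilityMeasure ν ∧ Sta ν ∧ Dep k ν ∧
      ∀ᵐ A ∂ν, Gap c d A := by
  obtain ⟨hm, hst, hdep⟩ := hbf (Bool × Bool) Bool 0 k κ (fun p x => (p x).2) hκ sκ dκ
    (fun ω => rfl) (fun ω ω' x h => by
      have := h x (by simp)
      simp only [this])
  refine ⟨κ.map fun p x => (p x).2, Measure.isProbabilityMeasure_map hm.aemeasurable, hst,
    by simpa using hdep, ?_⟩
  rw [ae_map_iff hm.aemeasurable (meas_gap c d)]
  exact gκ

theorem t_SPA : S_HL → S_MXD → S_BF → S_ATS → S_ATP → S_ATG → S_SPA := by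
  intro hhl hmxd hbf hats hatp hatg
  obtain ⟨ν, hν, sν, dν, aν⟩ := hhl
  obtain ⟨hm, hst, hdep⟩ := hbf (Fin 4) Bool 1 1 ν mx hν sν dν
    (fun ω => by
      funext i
      have h1 : i - 1 + 1 = i + 1 - 1 := by ring
      simp only [mx, sh, h1])
    (fun ω ω' x h => by
      have h1 := h (x - 1) (by rw [show x - 1 - x = -1 by ring]; norm_num)
      have h2 := h x (by simp)
      have h3 := h (x + 1) (by rw [show x + 1 - x = 1 by ring]; norm_num)
      simp only [mx, h1, h2, h3])
  have hp : IsProbabilityMeasure (ν.map mx) := Measure.isProbabilityMeasure_map hm.aemeasurable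
  have hgap : ∀ᵐ A ∂(ν.map mx), Gap 2 6 A := by
    rw [ae_map_iff hm.aemeasurable (meas_gap 2 6)]
    filter_upwards [aν] with Y hY
    exact hmxd Y hY
  obtain ⟨κ, hκ, sκ, dκ, gκ⟩ := op hats hatp hatg hp hp hst hst hdep hdep hgap hgap
  obtain ⟨ρ, hρ, sρ, dρ, gρ⟩ := snd_comp (c := 2 * 2) (d := 6 * 6) hbf hκ sκ dκ
    (gκ.mono fun p h => h.2.2)
  obtain ⟨κ', hκ', sκ', dκ', gκ'⟩ := op hats hatp hatg hρ hp sρ hst dρ hdep gρ hgap
  obtain ⟨ρ', hρ', sρ', dρ', gρ'⟩ := snd_comp (c := 2 * (2 * 2)) (d := 6 * (6 * 6)) hbf hκ' sκ'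
    dκ' (gκ'.mono fun p h => h.2.2)
  exact ⟨_, _, ρ', hρ', sρ', dρ', gρ'⟩

end Pool.Agent.Y418.AX.Spa
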