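import Mathlib
import Pool.Agent.Y755.AX.Stm
import Pool.Agent.Y418.AX.Spa

/-!
# Project AX, LVL: processes at all scales (problem 5bb7da)
-/

set_option autoImplicit false
set_option linter.unusedVariables false

open MeasureTheory ProbabilityTheory

namespace Pool.Agent.Y418.AX.Lvl

open Pool.Agent.Y755.AX Pool.Agent.Y418.AX.Spa

theorem Fs_le {α : Type} [MeasurableSpace α] (S : Set ℤ) :
    Fs (α := α) S ≤ (inferInstance : MeasurableSpace (ℤ → α)) :=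
  iSup₂_le fun x _ => (measurable_pi_apply x).comap_le

theorem Fs_mono {α : Type} [MeasurableSpace α] {S T : Set ℤ} (h : S ⊆ T) :
    Fs (α := α) S ≤ Fs T :=
  iSup₂_le fun x hx => le_iSup₂_of_le x (h hx) le_rfl

theorem dep_mono {α : Type} [MeasurableSpace α] {k k' : ℕ} (h : k ≤ k')
    {μ : Measure (ℤ → α)} (hd : Dep k μ) : Dep k' μ :=
  indep_of_indep_of_le_right hd (Fs_mono fun x (hx : (k' : ℤ) ≤ x) => by
    show (k : ℤ) ≤ x
    have : (k : ℤ) ≤ k' := by exact_mod_cast h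
    omega)

/-- level zero -/
theorem zero (k : ℕ) : ∃ μ : Measure (ℤ → Bool), IsProbabilityMeasure μ ∧
    Sta μ ∧ Dep k μ ∧ ∀ᵐ A ∂μ, Gap 1 4 A := by
  refine ⟨Measure.dirac fun _ => true, inferInstance, ?_, ?_, ?_⟩
  · have hsh : Measurable (sh : (ℤ → Bool) → ℤ → Bool) :=
      measurable_pi_lambda _ fun x => measurable_pi_apply (x + 1)
    show Measure.map sh _ = _
    rw [Measure.map_dirac' hsh]
    rfl
  · show Indep _ _ _
    rw [Indep_iff]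
    intro t1 t2 h1 h2
    have m1 : MeasurableSet t1 := Fs_le _ _ h1
    have m2 : MeasurableSet t2 := Fs_le _ _ h2
    rw [Measure.dirac_apply' _ (m1.inter m2), Measure.dirac_apply' _ m1,
      Measure.dirac_apply' _ m2]
    by_cases e1 : (fun _ => true : ℤ → Bool) ∈ t1 <;>
      by_cases e2 : (fun _ => true : ℤ → Bool) ∈ t2 <;> simp [Set.indicator, e1, e2]
  · rw [ae_dirac_iff (meas_gap 1 4)]
    refine ⟨fun x y hxy _ _ => by push_cast; omega, fun x => ⟨x, le_rfl, by omega, rfl⟩⟩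

/-- one step -/
theorem step (hbf : S_BF) (hats : S_ATS) (hatp : S_ATP) (hatg : S_ATG) (hsd : S_SUBD)
    (hsl : S_SUBL) {K R : ℕ} {ν : Measure (ℤ → Bool)} (hν : IsProbabilityMeasure ν)
    (sν : Sta ν) (dν : Dep K ν) (gν : ∀ᵐ A ∂ν, Gap 8 R A) {a k : ℕ} (ha : 1 ≤ a)
    {μ : Measure (ℤ → Bool)} (hμ : IsProbabilityMeasure μ) (sμ : Sta μ) (dμ : Dep k μ)
    (gμ : ∀ᵐ A ∂μ, Gap a (4 * a) A) :
    ∃ μ' : Measure (ℤ → Bool), IsProbabilityMeasure μ' ∧ Sta μ' ∧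
      Dep (k + K * (4 * a) + 2 * (R * (4 * a))) μ' ∧ ∀ᵐ A ∂μ', Gap (4 * a) (16 * a) A := by
  obtain ⟨κ, hκ, sκ, dκ, gκ⟩ := op hats hatp hatg hμ hν sμ sν dμ dν gμ gν
  obtain ⟨hm, hst, hdep⟩ := hbf (Bool × Bool) Bool (R * (4 * a)) _ κ
    (sub (8 * a) (R * (4 * a))) hκ sκ dκ (hsl _ _).1
    (fun ω ω' x h => (hsl (8 * a) (R * (4 * a))).2 ω ω' x h)
  refine ⟨κ.map (sub (8 * a) (R * (4 * a))), Measure.isProbabilityMeasure_map hm.aemeasurable,
    hst, hdep, ?_⟩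
  refine (mem_ae_map_iff hm.aemeasurable (meas_gap (4 * a) (16 * a))).2 ?_
  filter_upwards [gκ] with p hp
  exact hsd a (R * (4 * a)) p ha hp.1 hp.2.1 hp.2.2

theorem t_LVL : S_SPA → S_BF → S_ATS → S_ATP → S_ATG → S_SUBD → S_SUBL → S_LVL := by
  intro hspa hbf hats hatp hatg hsd hsl
  obtain ⟨K, R, ν, hν, sν, dν, gν⟩ := hspa
  refine ⟨4 * K + 8 * R, fun m => ?_⟩
  induction m with
  | zero =>
    obtain ⟨μ, h1, h2, h3, h4⟩ := zero ((4 * K + 8 * R) * 4 ^ 0)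
    exact ⟨μ, h1, h2, h3, by simpa using h4⟩
  | succ m ih =>
    obtain ⟨μ, hμ, sμ, dμ, gμ⟩ := ih
    obtain ⟨μ', h1, h2, h3, h4⟩ := step hbf hats hatp hatg hsd hsl hν sν dν gν
      (Nat.one_le_pow _ _ (by norm_num)) hμ sμ dμ gμ
    refine ⟨μ', h1, h2, dep_mono ?_ h3, ?_⟩
    · have e : (4 : ℕ) ^ (m + 1) = 4 * 4 ^ m := by ring
      rw [e]
      nlinarith [Nat.zero_le ((4 * K + 8 * R) * 4 ^ m)]
    · have e : (4 : ℕ) ^ (m + 1) = 4 * 4 ^ m := by ring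
      have e2 : 4 * (4 : ℕ) ^ (m + 1) = 16 * 4 ^ m := by ring
      rw [e2, e]
      exact h4

end Pool.Agent.Y418.AX.Lvl
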